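import Mathlib

/-!
# Strict monotonicity of the median of a McKay Type I law

`Z = φ (1 - 1/c) X₁ + φ (1 + 1/c) X₂` with `X₁, X₂` i.i.d. of law `Γ(m + 1/2, 1)`.
We prove that `c ↦ Med(Z)` is strictly increasing on `(1, ∞)` for every `m > -1/2`, `φ > 0`.

Proof.  Put `r = m + 1/2`, `δ = 1/c`, `Z_δ = (1-δ) X₁ + (1+δ) X₂`.

* (A) For `0 < t ≤ 2r` the map `δ ↦ P(Z_δ ≤ t)` is strictly increasing on `[0,1)`.  With
  `X₂ = w X₁`, `P(Z_δ ≤ t)` is an integral over `w`, whose `δ`-derivative is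
  `-C t^{2r} ∫ K(w) (w-1) D(w) dw`, `D(w) = (1-δ) + (1+δ) w`,
  `K(w) = w^{r-1} D^{-2r-2} exp(-t(1+w)/D)`.  An integration by parts gives a linear relation
  between the moments `m₀, m₁, m₂` of `K`, and with `∫ K (w-1)² > 0` it forces the sign.
* (B) The median of `Γ(a,1)` is below `a`: reflect `x ↦ a²/x`.

(A) and (B) give `P(Z_δ ≤ 2r) > 1/2`, so medians lie in the range where (A) applies.
-/

open MeasureTheory Set Real Filter Topology

namespace Pool.Agent.Results.MP_aeb357_pr.MedianMono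

open ProbabilityTheory in
/-- The law of `Z = φ (1 - 1/c) X₁ + φ (1 + 1/c) X₂`, where `X₁, X₂` are i.i.d. with the gamma law
of shape `m + 1/2` and rate `1` (the McKay Type I law). -/
noncomputable def lawZ (m c φ : ℝ) : Measure ℝ :=
  ((gammaMeasure (m + 1 / 2) 1).prod (gammaMeasure (m + 1 / 2) 1)).map
    (fun p => φ * (1 - 1 / c) * p.1 + φ * (1 + 1 / c) * p.2)

/-- The median of a law `ν` on the line: `inf {x : ν (-∞, x] ≥ 1/2}`. -/
noncomputable def med (ν : Measure ℝ) : ℝ := sInf {x : ℝ | 1 / 2 ≤ ν.real (Iic x)}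

/-- basic integrable weight -/
lemma base_integrable {r : ℝ} (hr : 0 < r) :
    IntegrableOn (fun w : ℝ => w ^ (r - 1) * (1 + w) ^ (-(2 * r))) (Ioi 0) := by
  rw [← Ioc_union_Ioi_eq_Ioi zero_le_one]
  refine IntegrableOn.union ?_ ?_
  · have h1 : IntegrableOn (fun w : ℝ => w ^ (r - 1)) (Ioc 0 1) := by
      rw [← intervalIntegrable_iff_integrableOn_Ioc_of_le zero_le_one]
      exact intervalIntegral.intervalIntegrable_rpow' (by linarith)
    refine Integrable.mono' h1 ?_ ?_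
    · exact ((measurable_id.pow_const _).mul ((measurable_const.add measurable_id).pow_const _)).aestronglyMeasurable
    · filter_upwards [ae_restrict_mem measurableSet_Ioc] with w hw
      have hw0 : 0 < w := hw.1
      rw [Real.norm_of_nonneg (by positivity)]
      have : (1 + w) ^ (-(2 * r)) ≤ 1 :=
        Real.rpow_le_one_of_one_le_of_nonpos (by linarith) (by linarith)
      calc w ^ (r - 1) * (1 + w) ^ (-(2 * r)) ≤ w ^ (r - 1) * 1 := by gcongr
        _ = w ^ (r - 1) := mul_one _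
  · have h1 : IntegrableOn (fun w : ℝ => w ^ (-r - 1)) (Ioi 1) :=
      integrableOn_Ioi_rpow_of_lt (by linarith) one_pos
    refine Integrable.mono' h1 ?_ ?_
    · exact ((measurable_id.pow_const _).mul ((measurable_const.add measurable_id).pow_const _)).aestronglyMeasurable
    · filter_upwards [ae_restrict_mem measurableSet_Ioi] with w hw
      have hw1 : 1 < w := hw
      have hw0 : 0 < w := by linarith
      rw [Real.norm_of_nonneg (by positivity)]
      have h2 : (1 + w) ^ (-(2 * r)) ≤ w ^ (-(2 * r)) :=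
        Real.rpow_le_rpow_of_nonpos hw0 (by linarith) (by linarith)
      calc w ^ (r - 1) * (1 + w) ^ (-(2 * r)) ≤ w ^ (r - 1) * w ^ (-(2 * r)) := by gcongr
        _ = w ^ (-r - 1) := by rw [← Real.rpow_add hw0]; congr 1; ring

/-- the kernel -/
noncomputable def K (r δ t w : ℝ) : ℝ :=
  w ^ (r - 1) * ((1 - δ) + (1 + δ) * w) ^ (-(2 * r) - 2) *
    exp (-(t * (1 + w) / ((1 - δ) + (1 + δ) * w)))

lemma D_pos {δ w : ℝ} (h1 : δ < 1) (h0 : -1 < δ) (hw : 0 < w) : 0 < (1 - δ) + (1 + δ) * w := by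
  have := mul_pos (show 0 < 1 + δ by linarith) hw
  linarith

lemma K_pos {r δ t w : ℝ} (h0 : -1 < δ) (h1 : δ < 1) (hw : 0 < w) : 0 < K r δ t w := by
  have := D_pos h1 h0 hw
  unfold K
  positivity

lemma K_measurable (r δ t : ℝ) : Measurable (K r δ t) := by
  unfold K
  fun_prop

/-- lower bound for D -/
lemma D_lower {δ δ₁ w : ℝ} (h1 : |δ| ≤ δ₁) (hw : 0 < w) :
    (1 - δ₁) * (1 + w) ≤ (1 - δ) + (1 + δ) * w := by
  have := abs_le.1 h1
  nlinarith [this.1, this.2]

/-- K times a quadratic is bounded -/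
lemma K_bound {r δ δ₁ t w : ℝ} (hr : 0 < r) (ht : 0 ≤ t) (h1 : |δ| ≤ δ₁) (h2 : δ₁ < 1) (hw : 0 < w) :
    K r δ t w * (1 + w) ^ 2 ≤ (1 - δ₁) ^ (-(2 * r) - 2) * (w ^ (r - 1) * (1 + w) ^ (-(2 * r))) := by
  have hd := D_lower h1 hw
  have hpos : 0 < (1 - δ₁) * (1 + w) := mul_pos (by linarith) (by linarith)
  have hD : 0 < (1 - δ) + (1 + δ) * w := hpos.trans_le hd
  have e1 : ((1 - δ) + (1 + δ) * w) ^ (-(2 * r) - 2) ≤ ((1 - δ₁) * (1 + w)) ^ (-(2 * r) - 2) :=
    Real.rpow_le_rpow_of_nonpos hpos hd (by linarith)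
  have e2 : exp (-(t * (1 + w) / ((1 - δ) + (1 + δ) * w))) ≤ 1 := by
    rw [Real.exp_le_one_iff]
    have : 0 ≤ t * (1 + w) / ((1 - δ) + (1 + δ) * w) := by positivity
    linarith
  have e3 : ((1 - δ₁) * (1 + w)) ^ (-(2 * r) - 2) = (1 - δ₁) ^ (-(2 * r) - 2) * (1 + w) ^ (-(2 * r) - 2) :=
    Real.mul_rpow (by linarith) (by linarith)
  have e4 : (1 + w) ^ (-(2 * r) - 2) * (1 + w) ^ 2 = (1 + w) ^ (-(2 * r)) := by
    rw [← Real.rpow_natCast (1 + w) 2, ← Real.rpow_add (by linarith)]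
    congr 1
    push_cast
    ring
  unfold K
  calc w ^ (r - 1) * ((1 - δ) + (1 + δ) * w) ^ (-(2 * r) - 2) *
        exp (-(t * (1 + w) / ((1 - δ) + (1 + δ) * w))) * (1 + w) ^ 2
      ≤ w ^ (r - 1) * (((1 - δ₁) * (1 + w)) ^ (-(2 * r) - 2)) * 1 * (1 + w) ^ 2 := by
        gcongr
    _ = (1 - δ₁) ^ (-(2 * r) - 2) * (w ^ (r - 1) * ((1 + w) ^ (-(2 * r) - 2) * (1 + w) ^ 2)) := by
        rw [e3]; ring
    _ = _ := by rw [e4]

lemma K_mul_integrable {r δ t : ℝ} (hr : 0 < r) (ht : 0 ≤ t) (h : |δ| < 1) (q : ℝ → ℝ)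
    (hq : Measurable q) (C : ℝ) (hC : ∀ w, 0 < w → |q w| ≤ C * (1 + w) ^ 2) :
    IntegrableOn (fun w => K r δ t w * q w) (Ioi 0) := by
  have hδ := abs_lt.1 h
  refine Integrable.mono' ((base_integrable hr).const_mul (C * (1 - |δ|) ^ (-(2 * r) - 2))) ?_ ?_
  · exact ((K_measurable r δ t).mul hq).aestronglyMeasurable
  · filter_upwards [ae_restrict_mem measurableSet_Ioi] with w hw
    have hw0 : 0 < w := hw
    have hK := K_pos (r := r) (t := t) hδ.1 hδ.2 hw0
    rw [norm_mul, Real.norm_of_nonneg hK.le, Real.norm_eq_abs]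
    have hC0 : 0 ≤ C := by
      have := hC 1 one_pos
      have h2 := abs_nonneg (q 1)
      nlinarith
    calc K r δ t w * |q w| ≤ K r δ t w * (C * (1 + w) ^ 2) := by
          gcongr
          exact hC w hw0
      _ = C * (K r δ t w * (1 + w) ^ 2) := by ring
      _ ≤ C * ((1 - |δ|) ^ (-(2 * r) - 2) * (w ^ (r - 1) * (1 + w) ^ (-(2 * r)))) :=
          mul_le_mul_of_nonneg_left (K_bound hr ht le_rfl h hw0) hC0
      _ = _ := by ring

/-- The integration by parts identity. -/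
lemma ibp {r δ t : ℝ} (hr : 0 < r) (ht : 0 ≤ t) (h : |δ| < 1) :
    ∫ w in Ioi (0 : ℝ), K r δ t w * (r * ((1 - δ) ^ 2 - (1 + δ) ^ 2 * w ^ 2) + 2 * δ * t * w) = 0 := by
  have hδ := abs_lt.1 h
  set V : ℝ → ℝ := fun w => w ^ r * ((1 - δ) + (1 + δ) * w) ^ (-(2 * r)) *
    exp (-(t * (1 + w) / ((1 - δ) + (1 + δ) * w))) with hV
  have hderiv : ∀ w ∈ Ioi (0 : ℝ), HasDerivAt V
      (K r δ t w * (r * ((1 - δ) ^ 2 - (1 + δ) ^ 2 * w ^ 2) + 2 * δ * t * w)) w := by
    intro w hw
    have hw0 : 0 < w := hw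
    have hD := D_pos hδ.2 hδ.1 hw0
    have d1 : HasDerivAt (fun w : ℝ => w ^ r) (r * w ^ (r - 1)) w :=
      Real.hasDerivAt_rpow_const (Or.inl hw0.ne')
    have dD : HasDerivAt (fun w : ℝ => (1 - δ) + (1 + δ) * w) (1 + δ) w := by
      simpa using ((hasDerivAt_id w).const_mul (1 + δ)).const_add (1 - δ)
    have d2 : HasDerivAt (fun w : ℝ => ((1 - δ) + (1 + δ) * w) ^ (-(2 * r)))
        ((1 + δ) * (-(2 * r)) * ((1 - δ) + (1 + δ) * w) ^ (-(2 * r) - 1)) w :=
      dD.rpow_const (Or.inl hD.ne')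
    have d3 : HasDerivAt (fun w : ℝ => -(t * (1 + w) / ((1 - δ) + (1 + δ) * w)))
        (-((t * 1 * ((1 - δ) + (1 + δ) * w) - t * (1 + w) * (1 + δ)) /
          ((1 - δ) + (1 + δ) * w) ^ 2)) w := by
      exact ((((hasDerivAt_id w).const_add 1).const_mul t).div dD hD.ne').neg
    have d4 := d3.exp
    have := (d1.mul d2).mul d4
    refine this.congr_deriv ?_
    have p1 : w ^ r = w ^ (r - 1) * w := by
      rw [← Real.rpow_add_one hw0.ne']; congr 1; ring
    set D := (1 - δ) + (1 + δ) * w with hDdef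
    have p2 : D ^ (-(2 * r)) = D ^ (-(2 * r) - 2) * D ^ 2 := by
      rw [← Real.rpow_natCast D 2, ← Real.rpow_add hD]; congr 1; push_cast; ring
    have p3 : D ^ (-(2 * r) - 1) = D ^ (-(2 * r) - 2) * D := by
      rw [← Real.rpow_add_one hD.ne']; congr 1; ring
    unfold K
    simp only [Pi.mul_apply]
    rw [← hDdef, p1, p2, p3]
    field_simp
    rw [hDdef]
    ring
  have hcont : ContinuousWithinAt V (Ici 0) 0 := by
    apply ContinuousAt.continuousWithinAt
    have hD0 : (1 - δ) + (1 + δ) * (0 : ℝ) ≠ 0 := by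
      intro hh; linarith [hδ.2]
    apply ContinuousAt.mul
    · apply ContinuousAt.mul
      · exact Real.continuousAt_rpow_const _ _ (Or.inr hr.le)
      · exact ContinuousAt.rpow_const (by fun_prop) (Or.inl hD0)
    · apply Real.continuous_exp.continuousAt.comp
      apply ContinuousAt.neg
      exact ContinuousAt.div (by fun_prop) (by fun_prop) hD0
  have hint : IntegrableOn (fun w => K r δ t w *
      (r * ((1 - δ) ^ 2 - (1 + δ) ^ 2 * w ^ 2) + 2 * δ * t * w)) (Ioi 0) := by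
    apply K_mul_integrable hr ht h _ (by fun_prop) (8 * r + 2 * t)
    intro w hw
    rw [abs_le]
    have hs1 : (1 - δ) ^ 2 ≤ 4 := by nlinarith
    have hs2 : (1 + δ) ^ 2 ≤ 4 := by nlinarith
    have hs3 : 0 ≤ (1 - δ) ^ 2 := by positivity
    have hs4 : 0 ≤ (1 + δ) ^ 2 := by positivity
    have a1 : r * (1 - δ) ^ 2 ≤ r * 4 := by gcongr
    have a2 : r * ((1 + δ) ^ 2 * w ^ 2) ≤ r * (4 * w ^ 2) := by gcongr
    have a3 : 0 ≤ r * (1 - δ) ^ 2 := by positivity
    have a4 : 0 ≤ r * ((1 + δ) ^ 2 * w ^ 2) := by positivity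
    have a5 : δ * (t * w) ≤ 1 * (t * w) := by
      apply mul_le_mul_of_nonneg_right hδ.2.le; positivity
    have a6 : -(1 * (t * w)) ≤ δ * (t * w) := by
      have : (-1) * (t * w) ≤ δ * (t * w) := by
        apply mul_le_mul_of_nonneg_right hδ.1.le; positivity
      linarith
    have a7 : 0 ≤ r * w := by positivity
    have a8 : 0 ≤ t * w := by positivity
    have a9 : 0 ≤ t * w ^ 2 := by positivity
    have a10 : 0 ≤ r * w ^ 2 := by positivity
    constructor
    · nlinarith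
    · nlinarith
  have hlim : Tendsto V atTop (𝓝 0) := by
    have hup : Tendsto (fun w : ℝ => (1 + δ) ^ (-(2 * r)) * w ^ (-r)) atTop (𝓝 0) := by
      have := (tendsto_rpow_neg_atTop hr).const_mul ((1 + δ) ^ (-(2 * r)))
      simpa using this
    refine tendsto_of_tendsto_of_tendsto_of_le_of_le' tendsto_const_nhds hup ?_ ?_
    · filter_upwards [eventually_gt_atTop 0] with w hw
      have hD := D_pos hδ.2 hδ.1 hw
      simp only [hV]
      positivity
    · filter_upwards [eventually_gt_atTop 0] with w hw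
      have hD := D_pos hδ.2 hδ.1 hw
      simp only [hV]
      have hb : 0 < (1 + δ) * w := mul_pos (by linarith) hw
      have e1 : ((1 - δ) + (1 + δ) * w) ^ (-(2 * r)) ≤ ((1 + δ) * w) ^ (-(2 * r)) :=
        Real.rpow_le_rpow_of_nonpos hb (by linarith) (by linarith)
      have e2 : exp (-(t * (1 + w) / ((1 - δ) + (1 + δ) * w))) ≤ 1 := by
        rw [Real.exp_le_one_iff]
        have : 0 ≤ t * (1 + w) / ((1 - δ) + (1 + δ) * w) := by positivity
        linarith
      calc w ^ r * ((1 - δ) + (1 + δ) * w) ^ (-(2 * r)) *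
            exp (-(t * (1 + w) / ((1 - δ) + (1 + δ) * w)))
          ≤ w ^ r * (((1 + δ) * w) ^ (-(2 * r))) * 1 := by gcongr
        _ = (1 + δ) ^ (-(2 * r)) * w ^ (-r) := by
          rw [Real.mul_rpow (by linarith) hw.le]
          have : w ^ (-r) = w ^ r * w ^ (-(2 * r)) := by
            rw [← Real.rpow_add hw]; congr 1; ring
          rw [this]; ring
  have := integral_Ioi_of_hasDerivAt_of_tendsto hcont hderiv hint hlim
  rw [this]
  simp [hV, Real.zero_rpow hr.ne']

lemma key_neg {r δ t : ℝ} (hr : 0 < r) (hδ : 0 < δ) (hδ1 : δ < 1) (ht : 0 < t)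
    (ht2 : t ≤ 2 * r) :
    ∫ w in Ioi (0 : ℝ), K r δ t w * ((w - 1) * ((1 - δ) + (1 + δ) * w)) < 0 := by
  have habs : |δ| < 1 := by rw [abs_of_pos hδ]; exact hδ1
  have i0 : IntegrableOn (fun w => K r δ t w * 1) (Ioi 0) :=
    K_mul_integrable hr ht.le habs (fun _ => 1) measurable_const 1 (fun w hw => by
      rw [abs_one]; nlinarith)
  have i1 : IntegrableOn (fun w => K r δ t w * w) (Ioi 0) :=
    K_mul_integrable hr ht.le habs (fun w => w) measurable_id 1 (fun w hw => by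
      rw [abs_of_pos hw]; nlinarith)
  have i2 : IntegrableOn (fun w => K r δ t w * w ^ 2) (Ioi 0) :=
    K_mul_integrable hr ht.le habs (fun w => w ^ 2) (by fun_prop) 1 (fun w hw => by
      rw [abs_of_pos (by positivity)]; nlinarith)
  set m0 := ∫ w in Ioi (0 : ℝ), K r δ t w * 1 with hm0
  set m1 := ∫ w in Ioi (0 : ℝ), K r δ t w * w with hm1
  set m2 := ∫ w in Ioi (0 : ℝ), K r δ t w * w ^ 2 with hm2
  have lin : ∀ a b c : ℝ, ∫ w in Ioi (0 : ℝ), K r δ t w * (a + b * w + c * w ^ 2) =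
      a * m0 + b * m1 + c * m2 := by
    intro a b c
    have e : (fun w => K r δ t w * (a + b * w + c * w ^ 2)) =
        fun w => a * (K r δ t w * 1) + b * (K r δ t w * w) + c * (K r δ t w * w ^ 2) := by
      funext w; ring
    rw [e, integral_add, integral_add, integral_const_mul, integral_const_mul, integral_const_mul]
    · exact i0.const_mul a
    · exact i1.const_mul b
    · exact (i0.const_mul a).add (i1.const_mul b)
    · exact i2.const_mul c
  have hibp := ibp hr ht.le habs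
  have e1 : (fun w => K r δ t w * (r * ((1 - δ) ^ 2 - (1 + δ) ^ 2 * w ^ 2) + 2 * δ * t * w)) =
      fun w => K r δ t w * (r * (1 - δ) ^ 2 + (2 * δ * t) * w + (-(r * (1 + δ) ^ 2)) * w ^ 2) := by
    funext w; ring
  rw [e1, lin] at hibp
  have e2 : (fun w => K r δ t w * ((w - 1) * ((1 - δ) + (1 + δ) * w))) =
      fun w => K r δ t w * ((-(1 - δ)) + (-2 * δ) * w + (1 + δ) * w ^ 2) := by
    funext w; ring
  rw [e2, lin]
  have pos : ∀ q : ℝ → ℝ, IntegrableOn (fun w => K r δ t w * q w) (Ioi 0) →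
      (∀ w, 0 < w → 0 ≤ q w) → (∀ w, 1 < w → 0 < q w) →
      0 < ∫ w in Ioi (0 : ℝ), K r δ t w * q w := by
    intro q hq h0 h1
    rw [setIntegral_pos_iff_support_of_nonneg_ae]
    · have hsub : Ioi (1 : ℝ) ⊆ Function.support (fun w => K r δ t w * q w) ∩ Ioi 0 := by
        intro w hw
        have hw1 : 1 < w := hw
        have hw0 : 0 < w := by linarith
        refine ⟨?_, hw0⟩
        have := mul_pos (K_pos (r := r) (t := t) (by linarith : -1 < δ) hδ1 hw0) (h1 w hw1)
        exact this.ne'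
      refine lt_of_lt_of_le ?_ (measure_mono hsub)
      simp
    · filter_upwards [ae_restrict_mem measurableSet_Ioi] with w hw
      exact mul_nonneg (K_pos (by linarith) hδ1 hw).le (h0 w hw)
    · exact hq
  have hm1pos : 0 < m1 := pos (fun w => w) i1 (fun w hw => hw.le) (fun w hw => by linarith)
  have hsq : 0 < 1 * m0 + (-2) * m1 + 1 * m2 := by
    rw [← lin 1 (-2) 1]
    apply pos (fun w => 1 + (-2) * w + 1 * w ^ 2)
    · apply K_mul_integrable hr ht.le habs _ (by fun_prop) 3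
      intro w hw
      rw [abs_le]
      constructor <;> nlinarith
    · intro w _
      nlinarith [sq_nonneg (w - 1)]
    · intro w hw
      nlinarith [mul_pos (sub_pos.2 hw) (sub_pos.2 hw)]
  by_contra hcon
  push Not at hcon
  have hA : 2 * δ * t * m1 ≤ 4 * r * δ * m1 := by
    have := mul_le_mul_of_nonneg_right ht2 (mul_pos hδ hm1pos).le
    nlinarith
  have hB : (1 + δ) ^ 2 * m2 - (1 - δ) ^ 2 * m0 ≤ 4 * δ * m1 := by
    have : r * ((1 + δ) ^ 2 * m2 - (1 - δ) ^ 2 * m0) ≤ r * (4 * δ * m1) := by nlinarith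
    exact le_of_mul_le_mul_left this hr
  have hC : m2 < m0 := by
    have h1 : 4 * δ * m1 < 2 * δ * (m2 + m0) := by nlinarith
    have h2 : (1 + δ ^ 2) * (m2 - m0) < 0 := by nlinarith
    nlinarith
  have hD : m0 ≤ m2 := by
    have h2 : (1 - δ) * (1 + δ) * m0 ≤ (1 - δ) * (1 + δ) * m2 := by nlinarith
    have h3 : 0 < (1 - δ) * (1 + δ) := mul_pos (by linarith) (by linarith)
    exact le_of_mul_le_mul_left h2 h3
  linarith


open ProbabilityTheory ENNReal

/-- incomplete gamma type integral -/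
noncomputable def Phi (a s τ : ℝ) : ℝ := ∫ x in (0 : ℝ)..τ, x ^ (a - 1) * exp (-(s * x))

lemma Phi_intervalIntegrable {a : ℝ} (ha : 0 < a) (s τ : ℝ) :
    IntervalIntegrable (fun x : ℝ => x ^ (a - 1) * exp (-(s * x))) volume 0 τ := by
  apply (intervalIntegral.intervalIntegrable_rpow' (by linarith)).mul_continuousOn
  fun_prop

lemma Phi_nonneg (a s : ℝ) {τ : ℝ} (hτ : 0 ≤ τ) : 0 ≤ Phi a s τ := by
  unfold Phi
  rw [intervalIntegral.integral_of_le hτ]
  apply setIntegral_nonneg measurableSet_Ioc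
  intro x hx
  have : 0 < x := hx.1
  positivity

lemma Phi_hasDerivAt {a s τ : ℝ} (ha : 0 < a) (hτ : 0 < τ) :
    HasDerivAt (Phi a s) (τ ^ (a - 1) * exp (-(s * τ))) τ := by
  unfold Phi
  apply intervalIntegral.integral_hasDerivAt_right (Phi_intervalIntegrable ha s τ)
  · exact (by fun_prop : Measurable fun x : ℝ => x ^ (a - 1) * exp (-(s * x))).stronglyMeasurable.stronglyMeasurableAtFilter
  · apply ContinuousAt.mul
    · exact Real.continuousAt_rpow_const _ _ (Or.inl hτ.ne')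
    · fun_prop

lemma Phi_lintegral {a s τ c : ℝ} (ha : 0 < a) (hτ : 0 < τ) (hc : 0 ≤ c) :
    ∫⁻ x in Ioi (0 : ℝ), (if x ≤ τ then ENNReal.ofReal (c * (x ^ (a - 1) * exp (-(s * x)))) else 0)
      = ENNReal.ofReal (c * Phi a s τ) := by
  have h1 : ∫⁻ x in Ioi (0 : ℝ), (if x ≤ τ then ENNReal.ofReal (c * (x ^ (a - 1) * exp (-(s * x)))) else 0)
      = ∫⁻ x in Ioc (0 : ℝ) τ, ENNReal.ofReal (c * (x ^ (a - 1) * exp (-(s * x)))) := by
    rw [← lintegral_indicator measurableSet_Ioi, ← lintegral_indicator measurableSet_Ioc]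
    congr 1
    funext x
    by_cases hx0 : 0 < x
    · by_cases hx : x ≤ τ
      · simp [hx0, hx]
      · simp [hx]
    · simp [hx0]
  rw [h1, ← ofReal_integral_eq_lintegral_ofReal]
  · rw [integral_const_mul]
    unfold Phi
    rw [intervalIntegral.integral_of_le hτ.le]
  · exact ((intervalIntegrable_iff_integrableOn_Ioc_of_le hτ.le).1
      (Phi_intervalIntegrable ha s τ)).const_mul c
  · filter_upwards [ae_restrict_mem measurableSet_Ioc] with x hx
    have : 0 < x := hx.1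
    simp only [Pi.zero_apply]
    positivity

lemma scale_lint {x : ℝ} (hx : 0 < x) (h : ℝ → ℝ≥0∞) :
    ∫⁻ y in Ioi (0 : ℝ), h y = ∫⁻ w in Ioi (0 : ℝ), ENNReal.ofReal x * h (x * w) := by
  have himg : (fun w => x * w) '' Ioi (0 : ℝ) = Ioi 0 := by
    ext y
    constructor
    · rintro ⟨w, hw, rfl⟩
      exact mul_pos hx hw
    · intro hy
      exact ⟨y / x, div_pos hy hx, by field_simp⟩
  have := lintegral_image_eq_lintegral_abs_deriv_mul (s := Ioi (0 : ℝ)) (f := fun w => x * w)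
    (f' := fun _ => x) measurableSet_Ioi (fun w _ => by simpa using ((hasDerivAt_id w).const_mul x).hasDerivWithinAt)
    (fun a _ b _ hab => mul_left_cancel₀ hx.ne' hab) h
  rw [himg] at this
  rw [this, abs_of_pos hx]

/-- the normalising constant -/
noncomputable def Cr (r : ℝ) : ℝ := 1 / (Gamma r) ^ 2

lemma gammaPDF_pos {r x : ℝ} (hx : 0 < x) :
    gammaPDF r 1 x = ENNReal.ofReal (1 / Gamma r * x ^ (r - 1) * exp (-x)) := by
  rw [gammaPDF_of_nonneg hx.le, Real.one_rpow, one_mul]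

lemma gamma_lint (r : ℝ) {g : ℝ → ℝ≥0∞} (hg : Measurable g) :
    ∫⁻ x, g x ∂(gammaMeasure r 1) = ∫⁻ x in Ioi (0 : ℝ), gammaPDF r 1 x * g x := by
  have hm : Measurable (gammaPDF r 1) := (measurable_gammaPDFReal r 1).ennreal_ofReal
  rw [gammaMeasure, lintegral_withDensity_eq_lintegral_mul _ hm hg]
  rw [← lintegral_add_compl _ (measurableSet_Ici : MeasurableSet (Ici (0 : ℝ)))]
  have h0 : ∫⁻ x in (Ici (0 : ℝ))ᶜ, (gammaPDF r 1 * g) x = 0 := by
    rw [compl_Ici]
    rw [setLIntegral_congr_fun (g := fun _ => 0) measurableSet_Iio]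
    · simp
    · intro x hx
      simp only [Pi.mul_apply]
      rw [gammaPDF_of_neg hx, zero_mul]
  rw [h0, add_zero]
  exact setLIntegral_congr Ioi_ae_eq_Ici.symm

lemma prob_formula {r δ t : ℝ} (hr : 0 < r) (h : |δ| < 1) (ht : 0 < t) :
    ((gammaMeasure r 1).prod (gammaMeasure r 1)) {p : ℝ × ℝ | (1 - δ) * p.1 + (1 + δ) * p.2 ≤ t} =
      ∫⁻ w in Ioi (0 : ℝ), ENNReal.ofReal
        (Cr r * w ^ (r - 1) * Phi (2 * r) (1 + w) (t / ((1 - δ) + (1 + δ) * w))) := by
  have hδ := abs_lt.1 h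
  have : IsProbabilityMeasure (gammaMeasure r 1) := isProbabilityMeasure_gammaMeasure hr one_pos
  have hGr : 0 < Gamma r := Gamma_pos_of_pos hr
  set S := {p : ℝ × ℝ | (1 - δ) * p.1 + (1 + δ) * p.2 ≤ t} with hS
  have hSm : MeasurableSet S := measurableSet_le (by fun_prop) measurable_const
  have hm : Measurable (gammaPDF r 1) := (measurable_gammaPDFReal r 1).ennreal_ofReal
  rw [Measure.prod_apply hSm]
  rw [gamma_lint r (measurable_measure_prodMk_left hSm)]
  have hin : ∀ x : ℝ, (gammaMeasure r 1) (Prod.mk x ⁻¹' S) =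
      ∫⁻ y in Ioi (0 : ℝ), gammaPDF r 1 y * S.indicator 1 (x, y) := by
    intro x
    have : (gammaMeasure r 1) (Prod.mk x ⁻¹' S) =
        ∫⁻ y, S.indicator 1 (x, y) ∂(gammaMeasure r 1) := by
      rw [← lintegral_indicator_one (measurable_prodMk_left hSm)]
      rfl
    rw [this, gamma_lint r]
    exact (measurable_one.indicator hSm).comp measurable_prodMk_left
  have h2 : ∫⁻ x in Ioi (0 : ℝ), gammaPDF r 1 x * (gammaMeasure r 1) (Prod.mk x ⁻¹' S) =
      ∫⁻ x in Ioi (0 : ℝ), ∫⁻ w in Ioi (0 : ℝ), gammaPDF r 1 x *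
        (ENNReal.ofReal x * (gammaPDF r 1 (x * w) * S.indicator 1 (x, x * w))) := by
    apply setLIntegral_congr_fun measurableSet_Ioi
    intro x hx
    simp only []
    have hi : Measurable fun w : ℝ => S.indicator (1 : ℝ × ℝ → ℝ≥0∞) (x, x * w) :=
      (measurable_one.indicator hSm).comp (by fun_prop)
    have hg : Measurable fun w : ℝ => gammaPDF r 1 (x * w) := hm.comp (by fun_prop)
    have hgi : Measurable fun w : ℝ => gammaPDF r 1 (x * w) *
        S.indicator (1 : ℝ × ℝ → ℝ≥0∞) (x, x * w) := hg.mul hi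
    have hgi2 : Measurable fun w : ℝ => ENNReal.ofReal x * (gammaPDF r 1 (x * w) *
        S.indicator (1 : ℝ × ℝ → ℝ≥0∞) (x, x * w)) := measurable_const.mul hgi
    rw [hin, scale_lint hx, ← lintegral_const_mul _ hgi2]
  rw [h2, lintegral_lintegral_swap]
  · apply setLIntegral_congr_fun measurableSet_Ioi
    intro w hw
    have hw0 : 0 < w := hw
    have hD := D_pos hδ.2 hδ.1 hw0
    simp only []
    have hτ : 0 < t / ((1 - δ) + (1 + δ) * w) := div_pos ht hD
    have hc : 0 ≤ Cr r * w ^ (r - 1) := by unfold Cr; positivity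
    rw [← Phi_lintegral (s := 1 + w) (show 0 < 2 * r by linarith) hτ hc]
    apply setLIntegral_congr_fun measurableSet_Ioi
    intro x hx
    have hx0 : 0 < x := hx
    simp only []
    have hiff : (x, x * w) ∈ S ↔ x ≤ t / ((1 - δ) + (1 + δ) * w) := by
      rw [le_div_iff₀ hD]
      simp only [hS, mem_ofPred_eq]
      constructor <;> intro hh <;> nlinarith
    by_cases hmem : x ≤ t / ((1 - δ) + (1 + δ) * w)
    · rw [if_pos hmem, indicator_of_mem (hiff.2 hmem), gammaPDF_pos hx0,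
        gammaPDF_pos (mul_pos hx0 hw0), Pi.one_apply, mul_one,
        ← ENNReal.ofReal_mul hx0.le, ← ENNReal.ofReal_mul (by positivity)]
      congr 1
      unfold Cr
      have e1 : (x * w) ^ (r - 1) = x ^ (r - 1) * w ^ (r - 1) := Real.mul_rpow hx0.le hw0.le
      have e2 : exp (-((1 + w) * x)) = exp (-x) * exp (-(x * w)) := by
        rw [← Real.exp_add]; congr 1; ring
      have e3 : x ^ (2 * r - 1) = x ^ (r - 1) * x ^ (r - 1) * x := by
        rw [← Real.rpow_add hx0, ← Real.rpow_add_one hx0.ne']; congr 1; ring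
      rw [e1, e2, e3]
      field_simp
    · rw [if_neg hmem, indicator_of_notMem (fun hh => hmem (hiff.1 hh))]
      simp
  · apply Measurable.aemeasurable
    have hi : Measurable fun p : ℝ × ℝ => S.indicator (1 : ℝ × ℝ → ℝ≥0∞) (p.1, p.1 * p.2) :=
      (measurable_one.indicator hSm).comp (by fun_prop)
    exact (hm.comp measurable_fst).mul ((ENNReal.measurable_ofReal.comp measurable_fst).mul
      ((hm.comp (by fun_prop)).mul hi))


/-- integrand -/
noncomputable def gI (r t δ w : ℝ) : ℝ :=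
  Cr r * w ^ (r - 1) * Phi (2 * r) (1 + w) (t / ((1 - δ) + (1 + δ) * w))

lemma Cr_pos {r : ℝ} (hr : 0 < r) : 0 < Cr r := by
  have hGr : 0 < Gamma r := Gamma_pos_of_pos hr
  unfold Cr
  positivity

lemma gI_nonneg {r t δ w : ℝ} (hr : 0 < r) (h : |δ| < 1) (ht : 0 < t) (hw : 0 < w) :
    0 ≤ gI r t δ w := by
  have hδ := abs_lt.1 h
  have hD := D_pos hδ.2 hδ.1 hw
  have := Cr_pos hr
  have := Phi_nonneg (2 * r) (1 + w) (div_pos ht hD).le
  unfold gI
  positivity

lemma gI_aesm {r t δ : ℝ} (hr : 0 < r) (h : |δ| < 1) (ht : 0 < t) :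
    AEStronglyMeasurable (gI r t δ) (volume.restrict (Ioi 0)) := by
  have hδ := abs_lt.1 h
  have hmeas : Measurable fun p : ℝ × ℝ =>
      (if p.2 ≤ t / ((1 - δ) + (1 + δ) * p.1) then
        ENNReal.ofReal (Cr r * p.1 ^ (r - 1) * (p.2 ^ (2 * r - 1) * exp (-((1 + p.1) * p.2)))) else 0) := by
    apply Measurable.ite
    · exact measurableSet_le (by fun_prop) (by fun_prop)
    · fun_prop
    · fun_prop
  have hH : Measurable fun w : ℝ => (∫⁻ x in Ioi (0 : ℝ),
      (if x ≤ t / ((1 - δ) + (1 + δ) * w) then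
        ENNReal.ofReal (Cr r * w ^ (r - 1) * (x ^ (2 * r - 1) * exp (-((1 + w) * x)))) else 0)).toReal :=
    (hmeas.lintegral_prod_right' (ν := volume.restrict (Ioi (0 : ℝ)))).ennreal_toReal
  refine hH.aestronglyMeasurable.congr ?_
  filter_upwards [ae_restrict_mem measurableSet_Ioi] with w hw
  have hw0 : 0 < w := hw
  have hD := D_pos hδ.2 hδ.1 hw0
  have hτ : 0 < t / ((1 - δ) + (1 + δ) * w) := div_pos ht hD
  have hc : 0 ≤ Cr r * w ^ (r - 1) := by have := Cr_pos hr; positivity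
  rw [Phi_lintegral (s := 1 + w) (show 0 < 2 * r by linarith) hτ hc]
  exact ENNReal.toReal_ofReal (gI_nonneg hr h ht hw0)

/-- `P (Z_δ ≤ t)` -/
noncomputable def PZ (r t δ : ℝ) : ℝ :=
  ((gammaMeasure r 1).prod (gammaMeasure r 1)).real {p : ℝ × ℝ | (1 - δ) * p.1 + (1 + δ) * p.2 ≤ t}

lemma gI_integrable {r t δ : ℝ} (hr : 0 < r) (h : |δ| < 1) (ht : 0 < t) :
    IntegrableOn (gI r t δ) (Ioi 0) := by
  have : IsProbabilityMeasure (gammaMeasure r 1) := isProbabilityMeasure_gammaMeasure hr one_pos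
  refine ⟨gI_aesm hr h ht, ?_⟩
  rw [hasFiniteIntegral_iff_ofReal]
  · unfold gI
    rw [← prob_formula hr h ht]
    exact measure_lt_top _ _
  · filter_upwards [ae_restrict_mem measurableSet_Ioi] with w hw
    exact gI_nonneg hr h ht hw

lemma PZ_eq {r t δ : ℝ} (hr : 0 < r) (h : |δ| < 1) (ht : 0 < t) :
    PZ r t δ = ∫ w in Ioi (0 : ℝ), gI r t δ w := by
  unfold PZ
  rw [measureReal_def, prob_formula hr h ht, integral_eq_lintegral_of_nonneg_ae]
  · rfl
  · filter_upwards [ae_restrict_mem measurableSet_Ioi] with w hw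
    exact gI_nonneg hr h ht hw
  · exact gI_aesm hr h ht

lemma PZ_hasDerivAt {r t δ₀ : ℝ} (hr : 0 < r) (h : |δ₀| < 1) (ht : 0 < t) :
    HasDerivAt (fun δ => PZ r t δ)
      (-(t ^ (2 * r) * Cr r) * ∫ w in Ioi (0 : ℝ), K r δ₀ t w * ((w - 1) * ((1 - δ₀) + (1 + δ₀) * w))) δ₀ := by
  set δ₁ : ℝ := (1 + |δ₀|) / 2 with hδ₁
  have h1 : δ₁ < 1 := by rw [hδ₁]; linarith
  have h10 : 0 ≤ δ₁ := by rw [hδ₁]; positivity
  have hball : ∀ δ ∈ Metric.ball δ₀ ((1 - |δ₀|) / 2), |δ| ≤ δ₁ := by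
    intro δ hδ
    rw [Metric.mem_ball, Real.dist_eq] at hδ
    have := abs_sub_abs_le_abs_sub δ δ₀
    rw [hδ₁]; linarith
  have hCr := Cr_pos hr
  have main := hasDerivAt_integral_of_dominated_loc_of_deriv_le (μ := volume.restrict (Ioi (0 : ℝ)))
    (s := Metric.ball δ₀ ((1 - |δ₀|) / 2)) (F := fun δ w => gI r t δ w) (x₀ := δ₀)
    (F' := fun δ w => -(t ^ (2 * r) * Cr r) * (K r δ t w * ((w - 1) * ((1 - δ) + (1 + δ) * w))))
    (bound := fun w => (t ^ (2 * r) * Cr r) * (2 * ((1 - δ₁) ^ (-(2 * r) - 2) *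
      (w ^ (r - 1) * (1 + w) ^ (-(2 * r))))))
    (Metric.ball_mem_nhds _ (by linarith)) ?_ (gI_integrable hr h ht) ?_ ?_ ?_ ?_
  · have heq : (fun δ => PZ r t δ) =ᶠ[𝓝 δ₀] fun δ => ∫ w in Ioi (0 : ℝ), gI r t δ w := by
      filter_upwards [Metric.ball_mem_nhds δ₀ (show 0 < (1 - |δ₀|) / 2 by linarith)] with δ hδ
      exact PZ_eq hr ((hball δ hδ).trans_lt h1) ht
    rw [← integral_const_mul]
    exact main.2.congr_of_eventuallyEq heq
  · filter_upwards [Metric.ball_mem_nhds δ₀ (show 0 < (1 - |δ₀|) / 2 by linarith)] with δ hδ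
    exact gI_aesm hr ((hball δ hδ).trans_lt h1) ht
  · apply Measurable.aestronglyMeasurable
    have := K_measurable r δ₀ t
    fun_prop
  · filter_upwards [ae_restrict_mem measurableSet_Ioi] with w hw δ hδ
    have hw0 : 0 < w := hw
    have hd := hball δ hδ
    have hd1 : |δ| < 1 := hd.trans_lt h1
    have hδ' := abs_lt.1 hd1
    have hD := D_pos hδ'.2 hδ'.1 hw0
    have hK := K_pos (r := r) (t := t) hδ'.1 hδ'.2 hw0
    have hKb := K_bound hr ht.le hd h1 hw0
    have hq : |(w - 1) * ((1 - δ) + (1 + δ) * w)| ≤ 2 * (1 + w) ^ 2 := by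
      rw [abs_mul, abs_of_pos hD]
      have a1 : |w - 1| ≤ 1 + w := by rw [abs_le]; constructor <;> linarith
      have a2 : (1 - δ) + (1 + δ) * w ≤ 2 * (1 + w) := by nlinarith [hδ'.1, hδ'.2]
      calc |w - 1| * ((1 - δ) + (1 + δ) * w) ≤ (1 + w) * (2 * (1 + w)) := by gcongr
        _ = 2 * (1 + w) ^ 2 := by ring
    have ht2 : 0 < t ^ (2 * r) := by positivity
    rw [norm_mul, norm_neg, Real.norm_of_nonneg (by positivity), norm_mul, Real.norm_of_nonneg hK.le,
      Real.norm_eq_abs]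
    apply mul_le_mul_of_nonneg_left _ (by positivity)
    calc K r δ t w * |(w - 1) * ((1 - δ) + (1 + δ) * w)| ≤ K r δ t w * (2 * (1 + w) ^ 2) := by
          gcongr
      _ = 2 * (K r δ t w * (1 + w) ^ 2) := by ring
      _ ≤ _ := by linarith
  · apply Integrable.const_mul
    apply Integrable.const_mul
    apply Integrable.const_mul
    exact base_integrable hr
  · filter_upwards [ae_restrict_mem measurableSet_Ioi] with w hw δ hδ
    have hw0 : 0 < w := hw
    have hd := hball δ hδ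
    have hd1 : |δ| < 1 := hd.trans_lt h1
    have hδ' := abs_lt.1 hd1
    have hD := D_pos hδ'.2 hδ'.1 hw0
    have dD : HasDerivAt (fun δ : ℝ => (1 - δ) + (1 + δ) * w) (w - 1) δ := by
      have := ((hasDerivAt_id δ).const_sub 1).add (((hasDerivAt_id δ).const_add 1).mul_const w)
      refine this.congr_deriv ?_
      ring
    have dT : HasDerivAt (fun δ : ℝ => t / ((1 - δ) + (1 + δ) * w))
        ((0 * ((1 - δ) + (1 + δ) * w) - t * (w - 1)) / ((1 - δ) + (1 + δ) * w) ^ 2) δ :=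
      (hasDerivAt_const δ t).div dD hD.ne'
    have dP := (Phi_hasDerivAt (a := 2 * r) (s := 1 + w) (by linarith) (div_pos ht hD)).comp δ dT
    have := dP.const_mul (Cr r * w ^ (r - 1))
    refine this.congr_deriv ?_
    set D := (1 - δ) + (1 + δ) * w with hDdef
    have e1 : (t / D) ^ (2 * r - 1) = t ^ (2 * r) / t * (D ^ (-(2 * r) - 2) * D ^ 3) := by
      rw [Real.div_rpow ht.le hD.le, Real.rpow_sub_one ht.ne', ← Real.rpow_natCast D 3,
        ← Real.rpow_add hD, div_eq_mul_inv _ (D ^ (2 * r - 1)), ← Real.rpow_neg hD.le]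
      congr 2
      push_cast
      ring
    have e2 : exp (-((1 + w) * (t / D))) = exp (-(t * (1 + w) / D)) := by
      congr 1; ring
    unfold K
    rw [e1, e2, ← hDdef]
    field_simp
    ring

/-- Strict monotonicity of the distribution function in `δ` below the mean. -/
lemma PZ_strictMono {r t : ℝ} (hr : 0 < r) (ht : 0 < t) (ht2 : t ≤ 2 * r) :
    StrictMonoOn (fun δ => PZ r t δ) (Ico 0 1) := by
  apply strictMonoOn_of_deriv_pos (convex_Ico 0 1)
  · intro δ hδ
    have h : |δ| < 1 := by rw [abs_of_nonneg hδ.1]; exact hδ.2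
    exact (PZ_hasDerivAt hr h ht).continuousAt.continuousWithinAt
  · intro δ hδ
    rw [interior_Ico] at hδ
    have h : |δ| < 1 := by rw [abs_of_pos hδ.1]; exact hδ.2
    rw [(PZ_hasDerivAt hr h ht).deriv]
    have h1 := key_neg hr hδ.1 hδ.2 ht ht2
    have h2 : 0 < t ^ (2 * r) * Cr r := mul_pos (by positivity) (Cr_pos hr)
    nlinarith


/-! ### the median of a gamma law is below its mean -/

lemma gamma_integrable {a : ℝ} (ha : 0 < a) :
    IntegrableOn (fun x : ℝ => x ^ (a - 1) * exp (-(1 * x))) (Ioi 0) := by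
  have := Real.GammaIntegral_convergent ha
  refine this.congr_fun (fun x _ => ?_) measurableSet_Ioi
  simp only [one_mul]
  ring

lemma gamma_integral (a : ℝ) (ha : 0 < a) :
    ∫ x in Ioi (0 : ℝ), x ^ (a - 1) * exp (-(1 * x)) = Gamma a := by
  rw [Real.Gamma_eq_integral ha]
  apply setIntegral_congr_fun measurableSet_Ioi
  intro x _
  simp only [one_mul]
  ring

lemma pos_int (f : ℝ → ℝ) (a : ℝ) (hf : IntegrableOn f (Ioi a)) (hpos : ∀ x, a < x → 0 < f x) :
    0 < ∫ x in Ioi a, f x := by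
  rw [setIntegral_pos_iff_support_of_nonneg_ae]
  · have hsub : Ioi a ⊆ Function.support f ∩ Ioi a := fun w hw => ⟨(hpos w hw).ne', hw⟩
    refine lt_of_lt_of_le ?_ (measure_mono hsub)
    simp
  · filter_upwards [ae_restrict_mem measurableSet_Ioi] with w hw
    exact (hpos w hw).le
  · exact hf

lemma exp_ineq {a y : ℝ} (ha : 0 < a) (hy : a < y) :
    y ^ (a - 1) * exp (-(1 * y)) <
      a ^ 2 / y ^ 2 * ((a ^ 2 / y) ^ (a - 1) * exp (-(1 * (a ^ 2 / y)))) := by
  have hy0 : 0 < y := ha.trans hy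
  have hq : 0 < log (y / a) := Real.log_pos (by rw [lt_div_iff₀ ha]; linarith)
  have hs := Real.self_lt_sinh_iff.2 hq
  rw [Real.sinh_log (by positivity)] at hs
  have hl : log (y / a) = log y - log a := Real.log_div hy0.ne' ha.ne'
  rw [hl] at hs
  have hmul : 2 * a * (log y - log a) < y - a ^ 2 / y := by
    have h1 : a * (log y - log a) < a * ((y / a - (y / a)⁻¹) / 2) := by
      apply mul_lt_mul_of_pos_left hs ha
    have h2 : a * ((y / a - (y / a)⁻¹) / 2) = (y - a ^ 2 / y) / 2 := by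
      field_simp
    rw [h2] at h1
    linarith
  have e1 : y ^ (a - 1) * exp (-(1 * y)) = exp ((a - 1) * log y - y) := by
    rw [Real.rpow_def_of_pos hy0, ← Real.exp_add]
    congr 1; ring
  have e2 : a ^ 2 / y ^ 2 * ((a ^ 2 / y) ^ (a - 1) * exp (-(1 * (a ^ 2 / y)))) =
      exp (2 * log a - 2 * log y + (a - 1) * (2 * log a - log y) - a ^ 2 / y) := by
    have h3 : Real.log (a ^ 2 / y) = 2 * Real.log a - Real.log y := by
      rw [Real.log_div (by positivity) hy0.ne', Real.log_pow]; push_cast; ring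
    have h4 : a ^ 2 / y ^ 2 = exp (2 * log a - 2 * log y) := by
      rw [Real.exp_sub, mul_comm 2 (log a), mul_comm 2 (log y), Real.exp_mul, Real.exp_mul,
        Real.exp_log ha, Real.exp_log hy0]
      norm_num
    rw [Real.rpow_def_of_pos (by positivity), h3, h4, ← Real.exp_add, ← Real.exp_add]
    congr 1; ring
  rw [e1, e2, Real.exp_lt_exp]
  nlinarith

lemma gamma_median {a : ℝ} (ha : 0 < a) : Gamma a / 2 < Phi a 1 a := by
  set g : ℝ → ℝ := fun x => x ^ (a - 1) * exp (-(1 * x)) with hg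
  have hgi : IntegrableOn g (Ioi 0) := gamma_integrable ha
  have hgi1 : IntegrableOn g (Ioo 0 a) := hgi.mono_set Ioo_subset_Ioi_self
  have hgi2 : IntegrableOn g (Ioi a) := hgi.mono_set (Ioi_subset_Ioi ha.le)
  have himg : (fun y => a ^ 2 / y) '' Ioi a = Ioo 0 a := by
    ext x
    constructor
    · rintro ⟨y, hy, rfl⟩
      have hy' : a < y := hy
      have hy0 : 0 < y := ha.trans hy'
      refine ⟨by positivity, ?_⟩
      rw [div_lt_iff₀ hy0]
      nlinarith
    · intro hx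
      refine ⟨a ^ 2 / x, ?_, ?_⟩
      · show a < a ^ 2 / x
        rw [lt_div_iff₀ hx.1]
        nlinarith [hx.2]
      · have := hx.1.ne'
        field_simp
  have hder : ∀ y ∈ Ioi a, HasDerivWithinAt (fun y => a ^ 2 / y) (-(a ^ 2 / y ^ 2)) (Ioi a) y := by
    intro y hy
    have hy0 : 0 < y := ha.trans hy
    have h1 := (hasDerivAt_const y (a ^ 2)).div (hasDerivAt_id y) hy0.ne'
    refine (h1.congr_deriv ?_).hasDerivWithinAt
    simp
    ring
  have hinj : InjOn (fun y => a ^ 2 / y) (Ioi a) := by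
    intro x hx y hy hxy
    have hx0 : 0 < x := ha.trans hx
    have hy0 : 0 < y := ha.trans hy
    simp only [] at hxy
    rw [div_eq_div_iff hx0.ne' hy0.ne'] at hxy
    have : a ^ 2 ≠ 0 := by positivity
    exact (mul_left_cancel₀ this hxy).symm
  have hcv := integral_image_eq_integral_abs_deriv_smul measurableSet_Ioi hder hinj g
  have hcvi := (integrableOn_image_iff_integrableOn_abs_deriv_smul measurableSet_Ioi hder hinj g).1
    (by rw [himg]; exact hgi1)
  rw [himg] at hcv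
  have hpos : 0 < ∫ y in Ioi a, (|-(a ^ 2 / y ^ 2)| • g (a ^ 2 / y) - g y) := by
    apply pos_int _ _ (hcvi.sub hgi2)
    intro y hy
    have hy0 : 0 < y := ha.trans hy
    have := exp_ineq ha hy
    show 0 < |-(a ^ 2 / y ^ 2)| • g (a ^ 2 / y) - g y
    rw [abs_neg, abs_of_pos (by positivity), smul_eq_mul]
    simp only [hg]
    linarith
  rw [integral_sub hcvi hgi2, ← hcv] at hpos
  have hsum : (∫ x in Ioc 0 a, g x) + ∫ x in Ioi a, g x = Gamma a := by
    rw [← gamma_integral a ha, ← setIntegral_union (by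
      rw [Set.disjoint_left]; intro x hx hx2; exact absurd hx.2 (not_le.2 hx2)) measurableSet_Ioi
      (hgi.mono_set Ioc_subset_Ioi_self) hgi2, Ioc_union_Ioi_eq_Ioi ha.le]
  have hP : Phi a 1 a = ∫ x in Ioc 0 a, g x := by
    unfold Phi
    rw [intervalIntegral.integral_of_le ha.le]
  rw [hP]
  rw [← integral_Ioc_eq_integral_Ioo] at hpos
  linarith

lemma Phi_scale {a s t : ℝ} (hs : 0 < s) (ht : 0 < t) : Phi a s (t / s) = s ^ (-a) * Phi a 1 t := by
  have h := intervalIntegral.integral_comp_mul_left (a := 0) (b := t / s)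
    (fun x : ℝ => x ^ (a - 1) * exp (-(1 * x))) hs.ne'
  rw [mul_zero, mul_div_cancel₀ _ hs.ne'] at h
  have h2 : ∫ x in (0 : ℝ)..(t / s), (s * x) ^ (a - 1) * exp (-(1 * (s * x))) =
      s ^ (a - 1) * Phi a s (t / s) := by
    unfold Phi
    rw [← intervalIntegral.integral_const_mul]
    apply intervalIntegral.integral_congr_ae
    filter_upwards with x hx
    rw [uIoc_of_le (div_pos ht hs).le] at hx
    rw [Real.mul_rpow hs.le hx.1.le, one_mul, mul_assoc]
  rw [h2] at h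
  have h3 : s ^ (-a) = (s ^ (a - 1))⁻¹ * s⁻¹ := by
    rw [← Real.rpow_neg hs.le, ← Real.rpow_neg_one s, ← Real.rpow_add hs]
    congr 1; ring
  rw [h3]
  unfold Phi at h ⊢
  rw [smul_eq_mul] at h
  rw [mul_assoc, ← h, ← mul_assoc, inv_mul_cancel₀ (by positivity), one_mul]

/-! ### assembling -/

lemma PZ_measurable_set (δ t : ℝ) :
    MeasurableSet {p : ℝ × ℝ | (1 - δ) * p.1 + (1 + δ) * p.2 ≤ t} :=
  measurableSet_le (by fun_prop) measurable_const

lemma PZ_zero_formula {r : ℝ} (hr : 0 < r) : ∃ κ : ℝ, ∀ t, 0 < t → PZ r t 0 = κ * Phi (2 * r) 1 t := by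
  refine ⟨∫ w in Ioi (0 : ℝ), Cr r * w ^ (r - 1) * (1 + w) ^ (-(2 * r)), fun t ht => ?_⟩
  rw [PZ_eq hr (by norm_num) ht, ← integral_mul_const]
  apply setIntegral_congr_fun measurableSet_Ioi
  intro w hw
  have hw0 : 0 < w := hw
  simp only [gI]
  have e : (1 - (0 : ℝ)) + (1 + 0) * w = 1 + w := by ring
  rw [e, Phi_scale (by linarith) ht]
  ring

lemma PZ_tendsto {r : ℝ} (hr : 0 < r) : Tendsto (fun t => PZ r t 0) atTop (𝓝 1) := by
  have : IsProbabilityMeasure (gammaMeasure r 1) := isProbabilityMeasure_gammaMeasure hr one_pos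
  have hm : Measurable fun p : ℝ × ℝ => (1 - (0 : ℝ)) * p.1 + (1 + 0) * p.2 := by fun_prop
  set ν := ((gammaMeasure r 1).prod (gammaMeasure r 1)).map
    (fun p : ℝ × ℝ => (1 - (0 : ℝ)) * p.1 + (1 + 0) * p.2) with hν
  have : IsProbabilityMeasure ν := Measure.isProbabilityMeasure_map hm.aemeasurable
  have h := tendsto_cdf_atTop ν
  refine h.congr fun t => ?_
  rw [cdf_eq_real, measureReal_def, Measure.map_apply hm measurableSet_Iic]
  rfl

lemma PZ_half {r : ℝ} (hr : 0 < r) : 1 / 2 < PZ r (2 * r) 0 := by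
  have h2r : 0 < 2 * r := by linarith
  obtain ⟨κ, hκ⟩ := PZ_zero_formula hr
  have h1 : Tendsto (fun t => Phi (2 * r) 1 t) atTop (𝓝 (Gamma (2 * r))) := by
    rw [← gamma_integral (2 * r) h2r]
    exact intervalIntegral_tendsto_integral_Ioi 0 (gamma_integrable h2r) tendsto_id
  have h2 : Tendsto (fun t => PZ r t 0) atTop (𝓝 (κ * Gamma (2 * r))) := by
    refine (h1.const_mul κ).congr' ?_
    filter_upwards [eventually_gt_atTop 0] with t ht
    exact (hκ t ht).symm
  have h3 : κ * Gamma (2 * r) = 1 := tendsto_nhds_unique h2 (PZ_tendsto hr)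
  have hG := Gamma_pos_of_pos h2r
  have hκ0 : 0 < κ := by
    by_contra hcon
    push Not at hcon
    nlinarith
  rw [hκ _ h2r]
  have := gamma_median h2r
  have := mul_lt_mul_of_pos_left this hκ0
  linarith

lemma gamma_ac (r : ℝ) : gammaMeasure r 1 ≪ volume := withDensity_absolutelyContinuous _ _

lemma PZ_nonpos {r t δ : ℝ} (hr : 0 < r) (h : |δ| < 1) (ht : t ≤ 0) : PZ r t δ = 0 := by
  have : IsProbabilityMeasure (gammaMeasure r 1) := isProbabilityMeasure_gammaMeasure hr one_pos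
  have hδ := abs_lt.1 h
  have h0 : (gammaMeasure r 1) (Iic 0) = 0 := by
    have e : (gammaMeasure r 1) (Iic 0) = ∫⁻ x, (Iic (0 : ℝ)).indicator 1 x ∂(gammaMeasure r 1) := by
      rw [lintegral_indicator_one measurableSet_Iic]
    rw [e, gamma_lint r (measurable_one.indicator measurableSet_Iic)]
    rw [setLIntegral_congr_fun (g := fun _ => 0) measurableSet_Ioi]
    · simp
    · intro x hx
      have hx' : ¬ x ≤ 0 := not_le.2 hx
      simp [hx']
  unfold PZ
  rw [measureReal_def]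
  have hsub : {p : ℝ × ℝ | (1 - δ) * p.1 + (1 + δ) * p.2 ≤ t} ⊆
      (Iic 0 ×ˢ univ) ∪ (univ ×ˢ Iic 0) := by
    intro p hp
    by_contra hcon
    simp only [mem_union, mem_prod, mem_Iic, mem_univ, and_true, true_and, not_or, not_le] at hcon
    have h1 := mul_pos (show 0 < 1 - δ by linarith) hcon.1
    have h2 := mul_pos (show 0 < 1 + δ by linarith) hcon.2
    have h3 : (1 - δ) * p.1 + (1 + δ) * p.2 ≤ t := hp
    linarith
  have hnull : ((gammaMeasure r 1).prod (gammaMeasure r 1))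
      {p : ℝ × ℝ | (1 - δ) * p.1 + (1 + δ) * p.2 ≤ t} = 0 := by
    refine measure_mono_null hsub (measure_union_null ?_ ?_)
    · rw [Measure.prod_prod, h0, zero_mul]
    · rw [Measure.prod_prod, h0, mul_zero]
  rw [hnull]
  rfl

/-- no atoms -/
lemma level_null {r t δ : ℝ} (hr : 0 < r) (h : |δ| < 1) :
    ((gammaMeasure r 1).prod (gammaMeasure r 1)) {p : ℝ × ℝ | (1 - δ) * p.1 + (1 + δ) * p.2 = t} = 0 := by
  have : IsProbabilityMeasure (gammaMeasure r 1) := isProbabilityMeasure_gammaMeasure hr one_pos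
  have hδ := abs_lt.1 h
  have hm : MeasurableSet {p : ℝ × ℝ | (1 - δ) * p.1 + (1 + δ) * p.2 = t} :=
    measurableSet_eq_fun (by fun_prop) measurable_const
  rw [Measure.prod_apply hm]
  have : ∀ x : ℝ, (gammaMeasure r 1) (Prod.mk x ⁻¹' {p : ℝ × ℝ | (1 - δ) * p.1 + (1 + δ) * p.2 = t}) = 0 := by
    intro x
    have hsub : Prod.mk x ⁻¹' {p : ℝ × ℝ | (1 - δ) * p.1 + (1 + δ) * p.2 = t} ⊆
        {(t - (1 - δ) * x) / (1 + δ)} := by
      intro y hy
      have hy' : (1 - δ) * x + (1 + δ) * y = t := hy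
      rw [mem_singleton_iff, _root_.eq_div_iff (by linarith)]
      linarith
    exact measure_mono_null hsub (gamma_ac r (measure_singleton _))
  rw [lintegral_congr this]
  simp

lemma PZ_mono {r δ : ℝ} (hr : 0 < r) : Monotone (fun t => PZ r t δ) := by
  have : IsProbabilityMeasure (gammaMeasure r 1) := isProbabilityMeasure_gammaMeasure hr one_pos
  intro s t hst
  exact measureReal_mono (fun p hp => le_trans hp hst)

lemma PZ_left {r t δ a : ℝ} (hr : 0 < r) (h : |δ| < 1) (ha : a < PZ r t δ) :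
    ∃ t' < t, a < PZ r t' δ := by
  have : IsProbabilityMeasure (gammaMeasure r 1) := isProbabilityMeasure_gammaMeasure hr one_pos
  set P := (gammaMeasure r 1).prod (gammaMeasure r 1) with hP
  set Z : ℝ × ℝ → ℝ := fun p => (1 - δ) * p.1 + (1 + δ) * p.2 with hZ
  let S : ℕ → Set (ℝ × ℝ) := fun n => {p | Z p ≤ t - 1 / ((n : ℝ) + 1)}
  have hmono : Monotone S := by
    intro m n hmn p hp
    have h1 : (1 : ℝ) / (n + 1) ≤ 1 / (m + 1) := by
      apply one_div_le_one_div_of_le (by positivity)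
      have : (m : ℝ) ≤ n := by exact_mod_cast hmn
      linarith
    have h2 : Z p ≤ t - 1 / ((m : ℝ) + 1) := hp
    show Z p ≤ t - 1 / ((n : ℝ) + 1)
    linarith
  have hU : (⋃ n, S n) = {p | Z p < t} := by
    ext p
    simp only [mem_iUnion]
    constructor
    · rintro ⟨n, hn⟩
      have h2 : Z p ≤ t - 1 / ((n : ℝ) + 1) := hn
      have h3 : (0 : ℝ) < 1 / ((n : ℝ) + 1) := by positivity
      show Z p < t
      linarith
    · intro hp
      have hp' : Z p < t := hp
      obtain ⟨n, hn⟩ := exists_nat_one_div_lt (sub_pos.2 hp')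
      refine ⟨n, ?_⟩
      show Z p ≤ t - 1 / ((n : ℝ) + 1)
      linarith
  have ht := tendsto_measure_iUnion_atTop (μ := P) hmono
  rw [hU] at ht
  have heq : P {p | Z p < t} = P {p | Z p ≤ t} := by
    have hle1 : P {p | Z p < t} ≤ P {p | Z p ≤ t} := measure_mono (fun p (hp : Z p < t) => hp.le)
    refine le_antisymm hle1 ?_
    have hsub : {p | Z p ≤ t} ⊆ {p | Z p < t} ∪ {p | Z p = t} := by
      intro p hp
      rcases lt_or_eq_of_le (show Z p ≤ t from hp) with h1 | h1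
      · left; exact h1
      · right; exact h1
    calc P {p | Z p ≤ t} ≤ P ({p | Z p < t} ∪ {p | Z p = t}) := measure_mono hsub
      _ ≤ P {p | Z p < t} + P {p | Z p = t} := measure_union_le _ _
      _ = P {p | Z p < t} := by rw [level_null hr h, add_zero]
  rw [heq] at ht
  have ht' : Tendsto (fun n => (P (S n)).toReal) atTop (𝓝 (PZ r t δ)) :=
    (ENNReal.tendsto_toReal (measure_ne_top _ _)).comp ht
  obtain ⟨n, hn⟩ := (ht'.eventually_const_lt ha).exists
  exact ⟨t - 1 / ((n : ℝ) + 1), by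
    have : (0 : ℝ) < 1 / ((n : ℝ) + 1) := by positivity
    linarith, hn⟩

lemma PZ_right {r t δ a : ℝ} (hr : 0 < r) (ha : ∀ t' > t, a ≤ PZ r t' δ) : a ≤ PZ r t δ := by
  have : IsProbabilityMeasure (gammaMeasure r 1) := isProbabilityMeasure_gammaMeasure hr one_pos
  set P := (gammaMeasure r 1).prod (gammaMeasure r 1) with hP
  set Z : ℝ × ℝ → ℝ := fun p => (1 - δ) * p.1 + (1 + δ) * p.2 with hZ
  let S : ℕ → Set (ℝ × ℝ) := fun n => {p | Z p ≤ t + 1 / ((n : ℝ) + 1)}
  have hanti : Antitone S := by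
    intro m n hmn p hp
    have h1 : (1 : ℝ) / (n + 1) ≤ 1 / (m + 1) := by
      apply one_div_le_one_div_of_le (by positivity)
      have : (m : ℝ) ≤ n := by exact_mod_cast hmn
      linarith
    have h2 : Z p ≤ t + 1 / ((n : ℝ) + 1) := hp
    show Z p ≤ t + 1 / ((m : ℝ) + 1)
    linarith
  have hI : (⋂ n, S n) = {p | Z p ≤ t} := by
    ext p
    simp only [mem_iInter]
    constructor
    · intro hp
      have hl : Tendsto (fun n : ℕ => (1 : ℝ) / (n + 1)) atTop (𝓝 0) :=
        tendsto_one_div_add_atTop_nhds_zero_nat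
      have := ge_of_tendsto' (hl.const_add t) (fun n => hp n)
      show Z p ≤ t
      simpa using this
    · intro hp n
      have hp' : Z p ≤ t := hp
      have : (0 : ℝ) < 1 / ((n : ℝ) + 1) := by positivity
      show Z p ≤ t + 1 / ((n : ℝ) + 1)
      linarith
  have hms : ∀ n, NullMeasurableSet (S n) P :=
    fun n => (PZ_measurable_set δ (t + 1 / ((n : ℝ) + 1))).nullMeasurableSet
  have ht := tendsto_measure_iInter_atTop hms hanti ⟨0, measure_ne_top _ _⟩
  have ht' : Tendsto (fun n => (P (S n)).toReal) atTop (𝓝 (PZ r t δ)) := by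
    have := (ENNReal.tendsto_toReal (measure_ne_top _ _)).comp ht
    rw [hI] at this
    exact this
  refine ge_of_tendsto' ht' fun n => ?_
  exact ha _ (by
    have : (0 : ℝ) < 1 / ((n : ℝ) + 1) := by positivity
    linarith)

lemma lawZ_real {m c φ x : ℝ} (hφ : 0 < φ) :
    (lawZ m c φ).real (Iic x) = PZ (m + 1 / 2) (x / φ) (1 / c) := by
  unfold lawZ PZ
  rw [measureReal_def, measureReal_def, Measure.map_apply (by fun_prop) measurableSet_Iic]
  congr 2
  ext p
  simp only [mem_preimage, mem_Iic, mem_ofPred_eq]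
  rw [le_div_iff₀ hφ]
  constructor <;> intro h <;> nlinarith

/-- **Q1, positive answer.**  For every `m > -1/2` and every `φ > 0` the map
`c ↦ Med(Z_{m,c,φ})` is strictly increasing on `(1, ∞)`. -/
theorem result (m : ℝ) (hm : -1 / 2 < m) (φ : ℝ) (hφ : 0 < φ) :
    StrictMonoOn (fun c => med (lawZ m c φ)) (Ioi 1) := by
  intro c₁ hc₁ c₂ hc₂ hlt
  have hc₁' : 1 < c₁ := hc₁
  have hc₂' : 1 < c₂ := hc₂
  set r : ℝ := m + 1 / 2 with hr_def
  have hr : 0 < r := by rw [hr_def]; linarith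
  have hd2 : 0 < 1 / c₂ := by positivity
  have hd12 : 1 / c₂ < 1 / c₁ := one_div_lt_one_div_of_lt (by linarith) hlt
  have hd1 : 1 / c₁ < 1 := by rw [div_lt_one (by linarith)]; exact hc₁'
  have ha2 : |1 / c₂| < 1 := by rw [abs_of_pos hd2]; linarith
  have ha1 : |1 / c₁| < 1 := by rw [abs_of_pos (by linarith)]; exact hd1
  set S₁ : Set ℝ := {x : ℝ | 1 / 2 ≤ (lawZ m c₁ φ).real (Iic x)} with hS₁
  set S₂ : Set ℝ := {x : ℝ | 1 / 2 ≤ (lawZ m c₂ φ).real (Iic x)} with hS₂
  have mem1 : ∀ x, x ∈ S₁ ↔ 1 / 2 ≤ PZ r (x / φ) (1 / c₁) := by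
    intro x; rw [hS₁, mem_ofPred_eq, lawZ_real hφ]
  have mem2 : ∀ x, x ∈ S₂ ↔ 1 / 2 ≤ PZ r (x / φ) (1 / c₂) := by
    intro x; rw [hS₂, mem_ofPred_eq, lawZ_real hφ]
  have hpos1 : ∀ x ∈ S₁, 0 < x := by
    intro x hx
    by_contra hcon
    push Not at hcon
    rw [mem1, PZ_nonpos hr ha1 (div_nonpos_of_nonpos_of_nonneg hcon hφ.le)] at hx
    norm_num at hx
  have hpos2 : ∀ x ∈ S₂, 0 < x := by
    intro x hx
    by_contra hcon
    push Not at hcon
    rw [mem2, PZ_nonpos hr ha2 (div_nonpos_of_nonpos_of_nonneg hcon hφ.le)] at hx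
    norm_num at hx
  have hb1 : BddBelow S₁ := ⟨0, fun x hx => (hpos1 x hx).le⟩
  have hb2 : BddBelow S₂ := ⟨0, fun x hx => (hpos2 x hx).le⟩
  have h2r : 0 < 2 * r := by linarith
  -- the mean belongs to `S₂`
  have hmean : φ * (2 * r) ∈ S₂ := by
    rw [mem2]
    have h1 := PZ_strictMono hr h2r le_rfl (⟨le_rfl, one_pos⟩ : (0 : ℝ) ∈ Ico (0 : ℝ) 1)
      (⟨hd2.le, by linarith⟩ : 1 / c₂ ∈ Ico (0 : ℝ) 1) hd2
    have h2 := PZ_half hr
    rw [mul_div_cancel_left₀ _ hφ.ne']
    simp only [] at h1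
    linarith
  set x₂ : ℝ := sInf S₂ with hx₂
  have hx₂le : x₂ ≤ φ * (2 * r) := csInf_le hb2 hmean
  have hx₂mem : x₂ ∈ S₂ := by
    rw [mem2]
    apply PZ_right hr
    intro t' ht'
    have h1 : x₂ < φ * t' := by
      rw [gt_iff_lt, div_lt_iff₀ hφ] at ht'
      linarith
    obtain ⟨y, hy, hyt⟩ := exists_lt_of_csInf_lt ⟨_, hmean⟩ h1
    rw [mem2] at hy
    refine hy.trans (PZ_mono hr ?_)
    rw [div_le_iff₀ hφ]
    linarith
  have hx₂pos := hpos2 _ hx₂mem
  have ht0 : 0 < x₂ / φ := div_pos hx₂pos hφ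
  have ht2r : x₂ / φ ≤ 2 * r := by rw [div_le_iff₀ hφ]; linarith
  have hlt' := PZ_strictMono hr ht0 ht2r (⟨hd2.le, by linarith⟩ : 1 / c₂ ∈ Ico (0 : ℝ) 1)
    (⟨by linarith, hd1⟩ : 1 / c₁ ∈ Ico (0 : ℝ) 1) hd12
  simp only [] at hlt'
  have hgt : 1 / 2 < PZ r (x₂ / φ) (1 / c₁) := lt_of_le_of_lt ((mem2 _).1 hx₂mem) hlt'
  obtain ⟨t', ht', hPt'⟩ := PZ_left hr ha1 hgt
  have hmem1 : φ * t' ∈ S₁ := by
    rw [mem1, mul_div_cancel_left₀ _ hφ.ne']
    exact hPt'.le
  have h1 : sInf S₁ ≤ φ * t' := csInf_le hb1 hmem1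
  have h2 : φ * t' < x₂ := by
    rw [lt_div_iff₀ hφ] at ht'
    linarith
  exact lt_of_le_of_lt h1 h2

end Pool.Agent.Results.MP_aeb357_pr.MedianMono
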